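import Mathlib
import Pool.Agent.H87.IndP.Main

/-!
# `Ind (X × Y) ≤ Ind X + Ind Y` for a paracompact σ-locally compact factor `X`

Question 1 has a positive answer. The proof works with closed sets `S` of `X × Y` which, locally in
a metrizable way (that is, over the members of a numerable cover of `X × Y`), are contained in
finite unions of closed rectangles of total dimension at most `k`. Partitions of such sets with the
same property for `k - 1` are constructed successively near the closed sets `X_n × Y`, where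
`X = ⋃ X_n` with `X_n` closed and locally compact.
-/

set_option autoImplicit false

namespace Pool.Agent.Results.MP_bd525c_gt.SigmaLocallyCompact

open Set Topology
open Pool.Agent.H87.IndP (IndLT Ind FiniteSumTheorem)

universe u

/-- A space is σ-locally compact if it is the union of countably many closed locally compact
subspaces. -/
def SigmaLocallyCompact (X : Type u) [TopologicalSpace X] : Prop :=
  ∃ F : ℕ → Set X, (∀ n, IsClosed (F n)) ∧ (∀ n, LocallyCompactSpace (F n)) ∧ ⋃ n, F n = univ

/-- **Theorem.** Let `X` and `Y` be spaces, at least one of them nonempty, such that `X` is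
paracompact (Hausdorff) and σ-locally compact, `X × Y` is normal (Hausdorff), and both `X` and `Y`
satisfy the finite sum theorem for `Ind`. Then `Ind (X × Y) ≤ Ind X + Ind Y`. -/
theorem result (X Y : Type u) [TopologicalSpace X] [TopologicalSpace Y]
    (hne : Nonempty X ∨ Nonempty Y) (hX2 : T2Space X) (hXp : ParacompactSpace X)
    (hXs : SigmaLocallyCompact X) (hT2 : T2Space (X × Y)) (hnormal : NormalSpace (X × Y))
    (hX : FiniteSumTheorem X) (hY : FiniteSumTheorem Y) :
    Ind (X × Y) ≤ Ind X + Ind Y := by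
  classical
  by_cases hXe : Nonempty X
  swap
  · have h1 : IsEmpty X := not_nonempty_iff.1 hXe
    have h2 : Nonempty Y := hne.resolve_left hXe
    have h3 := Pool.Agent.H87.IndP.ind_nonneg Y
    rw [Pool.Agent.H87.IndP.ind_of_isEmpty X, Pool.Agent.H87.IndP.ind_of_isEmpty (X × Y)]
    calc ((-1 : ℤ) : WithTop ℤ) = ((-1 : ℤ) : WithTop ℤ) + ((0 : ℤ) : WithTop ℤ) := by
          rw [← WithTop.coe_add]; norm_num
      _ ≤ ((-1 : ℤ) : WithTop ℤ) + Ind Y := add_le_add_right h3 _
  by_cases hYe : Nonempty Y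
  swap
  · have h1 : IsEmpty Y := not_nonempty_iff.1 hYe
    have h3 := Pool.Agent.H87.IndP.ind_nonneg X
    rw [Pool.Agent.H87.IndP.ind_of_isEmpty Y, Pool.Agent.H87.IndP.ind_of_isEmpty (X × Y)]
    calc ((-1 : ℤ) : WithTop ℤ) = ((0 : ℤ) : WithTop ℤ) + ((-1 : ℤ) : WithTop ℤ) := by
          rw [← WithTop.coe_add]; norm_num
      _ ≤ Ind X + ((-1 : ℤ) : WithTop ℤ) := add_le_add_left h3 _
  obtain ⟨x0⟩ := hXe
  obtain ⟨y0⟩ := hYe
  by_cases h1 : ∃ k, IndLT k X
  swap
  · have : Ind X = ⊤ := by
      unfold Ind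
      rw [dif_neg h1]
    rw [this, WithTop.top_add]
    exact le_top
  by_cases h2 : ∃ l, IndLT l Y
  swap
  · have : Ind Y = ⊤ := by
      unfold Ind
      rw [dif_neg h2]
    rw [this, WithTop.add_top]
    exact le_top
  have hk := Nat.find_spec h1
  have hl := Nat.find_spec h2
  have eX : Ind X = ((((Nat.find h1 : ℕ) : ℤ) - 1 : ℤ) : WithTop ℤ) := by
    unfold Ind
    rw [dif_pos h1]
  have eY : Ind Y = ((((Nat.find h2 : ℕ) : ℤ) - 1 : ℤ) : WithTop ℤ) := by
    unfold Ind
    rw [dif_pos h2]
  obtain ⟨a, ha⟩ : ∃ a, Nat.find h1 = a + 1 := by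
    rcases hn : Nat.find h1 with _ | a
    · rw [hn] at hk
      exact ((show IsEmpty X from hk).false x0).elim
    · exact ⟨a, rfl⟩
  obtain ⟨b, hb⟩ : ∃ b, Nat.find h2 = b + 1 := by
    rcases hn : Nat.find h2 with _ | b
    · rw [hn] at hl
      exact ((show IsEmpty Y from hl).false y0).elim
    · exact ⟨b, rfl⟩
  rw [ha] at hk
  rw [hb] at hl
  obtain ⟨F, hF, hFl, hFu⟩ := hXs
  have hXY := (Pool.Agent.H87.IndP.ind_le_iff (a + b + 1) (X × Y)).2
    (Pool.Agent.H87.IndP.ind_prod_univ hX hY F hF
      (fun n => have := hFl n; inferInstance) hFu hk hl)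
  rw [eX, eY, ha, hb, ← WithTop.coe_add]
  refine hXY.trans (WithTop.coe_le_coe.2 ?_)
  push_cast
  omega

end Pool.Agent.Results.MP_bd525c_gt.SigmaLocallyCompact
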